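import Pool.Agent.Helper77.SO.St
import Pool.Agent.Helper35.PM.M_POT

/-!
# MP_7a9ddc_co, project SO, module FR: face functions which change only along the forest
-/

set_option autoImplicit false

namespace Pool.Agent.Helper67.SO.FR

open Equiv Equiv.Perm Pool.Agent.Helper35.PM Pool.Agent.Helper77.HY Pool.Agent.Helper77.OF4
  Pool.Agent.Helper77.SO

/-- a finite forest with an edge has a leaf -/
theorem leaf {V : Type} [Finite V] (T : SimpleGraph V) (hT : T.IsAcyclic) {a b : V}
    (hab : T.Adj a b) : ∃ x y, T.Adj x y ∧ ∀ z, T.Adj x z → z = y := by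
  classical
  have : Nonempty V := ⟨a⟩
  obtain ⟨u, v, p, hp, hmax⟩ := SimpleGraph.Walk.exists_isPath_forall_isPath_length_le_length T
  have h1 : 1 ≤ p.length := by
    have h := hmax a b (SimpleGraph.Walk.cons hab SimpleGraph.Walk.nil) (by simp [hab.ne])
    simpa using h
  have hnil : ¬ p.Nil := by
    intro h
    rw [← SimpleGraph.Walk.length_eq_zero_iff] at h
    omega
  refine ⟨u, p.snd, p.adj_snd hnil, fun z hz => ?_⟩
  by_cases hs : z ∈ p.support
  · exact hT.eq_snd_of_adj_start hp hz hs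
  · exfalso
    have h := hmax _ _ (SimpleGraph.Walk.cons hz.symm p)
      (by rw [SimpleGraph.Walk.cons_isPath_iff]; exact ⟨hp, hs⟩)
    rw [SimpleGraph.Walk.length_cons] at h
    omega

/-- the sum at a vertex -/
theorem vsum {V D : Type} [Fintype D] [DecidableEq V] (M : PMap V D) (p : D → ZMod 2)
    (hp : FC M p) (v : V) :
    ∑ d ∈ Finset.univ.filter (fun d => M.t d = v), (p (M.ι d) + p d) = 0 := by
  have h1 : ∀ d, p (M.ι d) = p (M.r d) := by
    intro d
    have h := hp (M.ι d)
    rw [PMap.φ_apply, M.inv] at h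
    exact h.symm
  have h2 : ∑ d ∈ Finset.univ.filter (fun d => M.t d = v), p (M.r d) =
      ∑ d ∈ Finset.univ.filter (fun d => M.t d = v), p d := by
    apply Finset.sum_equiv M.r
    · intro d
      simp [M.t_r]
    · intro d _
      rfl
  rw [Finset.sum_congr rfl (fun d _ => by rw [h1 d]), Finset.sum_add_distrib, h2, zadd_self]

/-- the indicator of the four darts -/
def x4 {V D : Type} [DecidableEq D] (M : PMap V D) (e1 e2 : D) (e : D) : ZMod 2 :=
  (if e = e1 then 1 else 0) + (if e = M.ι e1 then 1 else 0) +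
    ((if e = e2 then 1 else 0) + (if e = M.ι e2 then 1 else 0))

theorem x4_ι {V D : Type} [DecidableEq D] (M : PMap V D) (e1 e2 : D) (e : D) :
    x4 M e1 e2 (M.ι e) = x4 M e1 e2 e := by
  have h : ∀ a b : D, (M.ι a = b) = (a = M.ι b) := by
    intro a b
    apply propext
    constructor
    · intro h
      rw [← h, M.inv]
    · intro h
      rw [h, M.inv]
  unfold x4
  simp only [h, M.inv e1, M.inv e2]
  rw [add_comm (if e = M.ι e1 then (1 : ZMod 2) else 0) (if e = e1 then 1 else 0),
    add_comm (if e = M.ι e2 then (1 : ZMod 2) else 0) (if e = e2 then 1 else 0)]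

theorem exW {V D : Type} [Fintype D] [DecidableEq D] [DecidableEq V] (M : PMap V D) (e1 e2 : D)
    (ht : M.t e1 = M.t e2) (hti : M.t (M.ι e1) = M.t (M.ι e2)) :
    ∃ w : D → ZMod 2, FC M w ∧ ∀ e, w (M.ι e) = w e + x4 M e1 e2 e := by
  obtain ⟨u, hu⟩ := Pool.Agent.Helper35.PM.M_POT.main V D M (x4 M e1 e2) (by
    intro v
    unfold x4
    rw [Finset.sum_add_distrib, Finset.sum_add_distrib, Finset.sum_add_distrib,
      Finset.sum_ite_eq', Finset.sum_ite_eq', Finset.sum_ite_eq', Finset.sum_ite_eq']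
    simp only [Finset.mem_filter, Finset.mem_univ, true_and, ht, hti]
    exact zadd_self _)
  obtain ⟨w, hw1, hw2⟩ := M.pl (x4 M e1 e2) u (x4_ι M e1 e2) hu
  refine ⟨w, ?_, hw2⟩
  intro d
  rw [PMap.φ_apply, hw1, hw2, x4_ι, zadd_self']

theorem z2 {a b : ZMod 2} (h : a ≠ b) : a = b + 1 := by
  revert a b
  decide

theorem main (hCn : StCn0) : StFr := by
  intro V D _ _ M L W hL hconn hHC hloop hac p hFC hpW a b ha hb
  classical
  have := Fintype.ofFinite D
  -- strong induction on the cut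
  suffices H : ∀ (n : ℕ) (p : D → ZMod 2), cut M p = n → FC M p →
      (∀ e, p (M.ι e) ≠ p e → M.t e ∉ W ∧ M.t (M.ι e) ∉ W) → p a = p b from
    H _ p rfl hFC hpW
  clear hFC hpW p
  intro n
  induction n using Nat.strong_induction_on with
  | _ n ih =>
  intro p hn hFC hpW
  by_cases h0 : cut M p = 0
  · exact hCn V D M p hconn hFC h0 a b
  -- the graph of the cut
  let T : SimpleGraph V :=
    { Adj := fun x y => x ≠ y ∧ ((∃ e, p (M.ι e) ≠ p e ∧ M.t e = x ∧ M.t (M.ι e) = y) ∨
        ∃ e, p (M.ι e) ≠ p e ∧ M.t e = y ∧ M.t (M.ι e) = x)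
      symm := ⟨by
        rintro x y ⟨h1, h2⟩
        exact ⟨h1.symm, h2.symm⟩⟩
      loopless := ⟨fun x h => h.1 rfl⟩ }
  have hflip : ∀ e, p (M.ι e) ≠ p e → p (M.ι (M.ι e)) ≠ p (M.ι e) := by
    intro e he
    rw [M.inv]
    exact he.symm
  have hTle : T ≤ FG M.ι M.t W := by
    rintro x y ⟨h1, h2⟩
    rcases h2 with ⟨e, he, hx, hy⟩ | ⟨e, he, hy, hx⟩
    · have h3 := hpW e he
      rw [hx, hy] at h3
      exact ⟨h1, h3.1, h3.2, Or.inl ⟨e, hx, hy⟩⟩
    · have h3 := hpW e he
      rw [hx, hy] at h3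
      exact ⟨h1, h3.2, h3.1, Or.inr ⟨e, hy, hx⟩⟩
  have hTac : T.IsAcyclic := hac.anti hTle
  obtain ⟨e0, he0⟩ : ∃ e, p (M.ι e) ≠ p e := by
    by_contra hcon
    push Not at hcon
    apply h0
    unfold cut
    have : {d | p (M.ι d) ≠ p d} = ∅ := by
      ext d
      simp [hcon d]
    rw [this, Set.ncard_empty]
  have hadj : ∀ e, p (M.ι e) ≠ p e → T.Adj (M.t e) (M.t (M.ι e)) := fun e he =>
    ⟨(hloop e).symm, Or.inl ⟨e, he, rfl, rfl⟩⟩
  obtain ⟨x, y, hxy, huniq⟩ := leaf T hTac (hadj e0 he0)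
  obtain ⟨e1, he1, hx1, hy1⟩ : ∃ e, p (M.ι e) ≠ p e ∧ M.t e = x ∧ M.t (M.ι e) = y := by
    rcases hxy.2 with h | ⟨e, he, hy, hx⟩
    · exact h
    · exact ⟨M.ι e, hflip e he, hx, by rw [M.inv]; exact hy⟩
  obtain ⟨e2, hne, he2, hx2⟩ : ∃ e, e ≠ e1 ∧ p (M.ι e) ≠ p e ∧ M.t e = x := by
    by_contra hcon
    push Not at hcon
    have hs := vsum M p hFC x
    rw [Finset.sum_eq_single e1] at hs
    · rw [z2 he1] at hs
      revert hs
      generalize p e1 = z
      revert z
      decide
    · intro e he hee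
      rw [Finset.mem_filter] at he
      by_cases hc : p (M.ι e) = p e
      · rw [hc, zadd_self]
      · exact absurd he.2 (hcon e hee hc)
    · intro h
      exfalso
      apply h
      rw [Finset.mem_filter]
      exact ⟨Finset.mem_univ _, hx1⟩
  have hy2 : M.t (M.ι e2) = y := by
    apply huniq
    have h := hadj e2 he2
    rw [hx2] at h
    exact h
  obtain ⟨w, hwF, hwι⟩ := exW M e1 e2 (hx1.trans hx2.symm) (hy1.trans hy2.symm)
  have hxyne : x ≠ y := hxy.1
  have n1 : e1 ≠ M.ι e1 := (M.nofix e1).symm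
  have n2 : e2 ≠ M.ι e2 := (M.nofix e2).symm
  have n3 : e1 ≠ M.ι e2 := fun h => hxyne (by rw [← hx1, h, hy2])
  have n4 : e2 ≠ M.ι e1 := fun h => hxyne (by rw [← hx2, h, hy1])
  have n5 : M.ι e1 ≠ M.ι e2 := fun h => hne (M.inv.injective h).symm
  have hx4 : ∀ e, x4 M e1 e2 e = 0 ∨ (x4 M e1 e2 e = 1 ∧ p (M.ι e) ≠ p e ∧
      (e = e1 ∨ e = M.ι e1 ∨ e = e2 ∨ e = M.ι e2)) := by
    intro e
    by_cases c1 : e = e1
    · right
      subst c1
      refine ⟨?_, he1, Or.inl rfl⟩
      unfold x4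
      rw [if_pos rfl, if_neg n1, if_neg hne.symm, if_neg n3]
      rfl
    by_cases c2 : e = M.ι e1
    · right
      subst c2
      refine ⟨?_, hflip e1 he1, Or.inr (Or.inl rfl)⟩
      unfold x4
      rw [if_neg n1.symm, if_pos rfl, if_neg n4.symm, if_neg n5]
      rfl
    by_cases c3 : e = e2
    · right
      subst c3
      refine ⟨?_, he2, Or.inr (Or.inr (Or.inl rfl))⟩
      unfold x4
      rw [if_neg hne, if_neg n4, if_pos rfl, if_neg n2]
      rfl
    by_cases c4 : e = M.ι e2
    · right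
      subst c4
      refine ⟨?_, hflip e2 he2, Or.inr (Or.inr (Or.inr rfl))⟩
      unfold x4
      rw [if_neg n3.symm, if_neg n5.symm, if_neg n2.symm, if_pos rfl]
      rfl
    left
    unfold x4
    rw [if_neg c1, if_neg c2, if_neg c3, if_neg c4]
    rfl
  -- `w` does not separate
  have hwcut : cut M w ≤ 4 := by
    have hsub : {d | w (M.ι d) ≠ w d} ⊆ ({e1, M.ι e1, e2, M.ι e2} : Set D) := by
      intro d hd
      rcases hx4 d with h | ⟨_, _, h⟩
      · exfalso
        apply hd
        rw [hwι, h, add_zero]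
      · exact h
    calc cut M w ≤ ({e1, M.ι e1, e2, M.ι e2} : Set D).ncard :=
          Set.ncard_le_ncard hsub (Set.toFinite _)
      _ ≤ ({M.ι e1, e2, M.ι e2} : Set D).ncard + 1 := Set.ncard_insert_le _ _
      _ ≤ ({e2, M.ι e2} : Set D).ncard + 1 + 1 := by
          have := Set.ncard_insert_le (M.ι e1) ({e2, M.ι e2} : Set D)
          omega
      _ ≤ 4 := by
          have h1 := Set.ncard_insert_le e2 ({M.ι e2} : Set D)
          have h2 := Set.ncard_singleton (M.ι e2)
          omega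
  have hwab : w a = w b := by
    by_contra hcon
    have h := hHC w hwF ⟨a, b, ha, hb, hcon⟩
    omega
  -- the sum
  have hpw : ∀ e, (p (M.ι e) + w (M.ι e) ≠ p e + w e) → p (M.ι e) ≠ p e ∧ x4 M e1 e2 e = 0 := by
    intro e he
    rw [hwι] at he
    rcases hx4 e with h | ⟨h, h', _⟩
    · refine ⟨?_, h⟩
      intro hc
      apply he
      rw [hc, h, add_zero]
    · exfalso
      apply he
      rw [h, z2 h']
      generalize p e = z1
      generalize w e = z2
      revert z1 z2
      decide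
  have hlt : cut M (fun e => p e + w e) < cut M p := by
    apply Set.ncard_lt_ncard _ (Set.toFinite _)
    rw [Set.ssubset_iff_of_subset]
    · refine ⟨e1, he1, ?_⟩
      intro hc
      have h := (hpw e1 hc).2
      rcases hx4 e1 with h' | ⟨h', _⟩
      · have : x4 M e1 e2 e1 = 1 := by
          unfold x4
          rw [if_pos rfl, if_neg n1, if_neg hne.symm, if_neg n3]
          rfl
        rw [this] at h
        exact absurd h (by decide)
      · rw [h'] at h
        exact absurd h (by decide)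
    · intro e he
      exact (hpw e he).1
  have hres := ih (cut M (fun e => p e + w e)) (by rw [← hn]; exact hlt) (fun e => p e + w e) rfl
    (by
      intro d
      show p (M.φ d) + w (M.φ d) = p d + w d
      rw [hFC, hwF])
    (by
      intro e he
      exact hpW e (hpw e he).1)
  have hres' : p a + w a = p b + w b := hres
  rw [hwab] at hres'
  exact add_right_cancel hres'

end Pool.Agent.Helper67.SO.FR
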